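import Pool.Agent.U345.ZAE

/-!
# The moments of zeta, of its derivatives and of their linear combinations have the same order: joint moments with real exponents

We use Gaussian windows: `1 ≤ U ≤ T / log T` and `moment k T U` is the integral of `|ζ(1/2 + iy)|^(2k)` with the weight
`exp (-((y - T) / U)^2)` (so `U` may be bounded, e.g. `U = 1`).

Theorem (unconditional, all integers `k ≥ 1`, in particular `k = 3`, the sixth moment). For a polynomial `Q = ∑ a_j X^j` write
`Q(D) ζ = ∑ a_j ζ^(j) / (log T)^j`. Let `e_1, ..., e_n ≥ 0` be real numbers with the sum `2k` and let `Q_1, ..., Q_n` be polynomials such that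
no `Q_j` has two complex roots `a`, `b` (equal or not) with `a + conj b = -1`. Then the integral of `∏_j |Q_j(D) ζ(1/2 + iy)|^(e_j)` with
the weight is between two positive constants times the moment, for all large `T` and uniformly in `U`. The upper bound
holds for all polynomials.

For example (`Q_j = X^(d_j)`) the joint moments `∏_j |ζ^(d_j)|^(e_j)` of the derivatives have the order `(log T)^(d_1 e_1 + ... + d_n e_n)` times
the `2k`-th moment, for all orders `d_j` and all real exponents with the sum `2k`: so the joint moments of `|ζ|^(2k - 2h) |ζ'|^(2h)` have the order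
`(log T)^(2h)` times the moment for all real `h` between `0` and `k`; and (`Q = 1 + X`) the `2k`-th moment of the function
`ζ + ζ' / log T` of Levinson's method has the order of the `2k`-th moment of zeta.

The condition on the roots is natural: it means that `Q(D)` annihilates no non-zero combination of functions `s^n e^(c s)` which satisfies the
functional equation on the scale `1 / log T`. For `Q = X + 1/2` (the derivative of Hardy's function) it is violated.

The order of magnitude of the moment is not known for `k ≥ 3` and is not used. For `k = 1, 2` asymptotic formulas are classical (Ingham, Conrey); the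
conjectures for all `k`, with real `h`, come from random matrices (Hughes, Conrey-Rubinstein-Snaith).

Proof. Around a point of the line put `F(u) = ζ(1/2 + it + u / log T)`. The functional equation says that `conj F(-conj u)` is
`κ e^u F(u)`, up to a relative error `O(1 / log T)`, `|κ| = 1`. If `Q(D) F` is small on the disc `|u| ≤ 2`, then by reflection
`Q*(D) F` is small too, with `Q*(X) = conj Q(-1 - X)`, and so is `F(0)`, as `A Q + B Q* = 1` for some polynomials `A`, `B` by the condition on
the roots. For most of the cells of length `1 / log T`, in the sense of the moment, the maximum of `|ζ|` on the disc of radius `51 / log T` is bounded by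
a constant times the value at the given point (mean square inequalities for the derivatives of `ζ^k`). There `|Q(D) ζ|` has bounded
doubling, its few zeros are split off, and by Harnack's inequality it is large outside small discs, so that all the `Q_j(D) ζ`
are large together at most heights.
-/

set_option autoImplicit false

namespace Pool.Agent.Results.MP_39df77_nt.MomentsOfAllDerivatives

open MeasureTheory Filter Topology Polynomial

/-- the point `1/2 + iy` -/
noncomputable def point (y : ℝ) : ℂ := ((1 / 2 : ℝ) : ℂ) + y * Complex.I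

/-- the Gaussian weight of the window of width `U` at the height `T` -/
noncomputable def weight (T U y : ℝ) : ℝ := Real.exp (-((y - T) / U) ^ 2)

/-- the moment `∫ |ζ(1/2 + iy)|^(2k) exp (-((y - T) / U)^2) dy` -/
noncomputable def moment (k : ℕ) (T U : ℝ) : ℝ := ∫ y : ℝ, ‖riemannZeta (point y)‖ ^ (2 * k) * weight T U y

/-- `Q(D) ζ (s) = ∑ a_j ζ^(j)(s) / (log T)^j` for `Q = ∑ a_j X^j` -/
noncomputable def applied (Q : ℂ[X]) (T : ℝ) (s : ℂ) : ℂ :=
  ∑ j ∈ Finset.range (Q.natDegree + 1), Q.coeff j * (iteratedDeriv j riemannZeta s / (Real.log T : ℂ) ^ j)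

/-- the product of the `|Q_j(D) ζ(1/2 + iy)|^(e_j)`, times the weight -/
noncomputable def product {n : ℕ} (Q : Fin n → ℂ[X]) (e : Fin n → ℝ) (T U y : ℝ) : ℝ :=
  (∏ j, ‖applied (Q j) T (point y)‖ ^ (e j)) * weight T U y

/-- the product of the `|ζ^(d_j)(1/2 + iy)|^(e_j)`, times the weight -/
noncomputable def mixed {n : ℕ} (d : Fin n → ℕ) (e : Fin n → ℝ) (T U y : ℝ) : ℝ :=
  (∏ j, ‖iteratedDeriv (d j) riemannZeta (point y)‖ ^ (e j)) * weight T U y

theorem applied_pow (d : ℕ) (T : ℝ) (s : ℂ) :
    applied (X ^ d) T s = iteratedDeriv d riemannZeta s / (Real.log T : ℂ) ^ d := by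
  unfold applied
  rw [natDegree_X_pow]
  simp only [coeff_X_pow, ite_mul, one_mul, zero_mul, Finset.sum_ite_eq', Finset.mem_range, Nat.lt_succ_self,
    if_true]

theorem product_pow {n : ℕ} (d : Fin n → ℕ) (e : Fin n → ℝ) {T : ℝ} (hT : 0 < Real.log T) (U y : ℝ) :
    product (fun j => X ^ d j) e T U y * Real.log T ^ (∑ j, (d j : ℝ) * e j) = mixed d e T U y := by
  unfold product mixed
  have h : (∏ j, ‖applied (X ^ d j) T (point y)‖ ^ (e j)) * Real.log T ^ (∑ j, (d j : ℝ) * e j) =
      ∏ j, ‖iteratedDeriv (d j) riemannZeta (point y)‖ ^ (e j) := by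
    rw [Real.rpow_sum_of_pos hT, ← Finset.prod_mul_distrib]
    refine Finset.prod_congr rfl fun j _ => ?_
    rw [applied_pow, norm_div, norm_pow, Complex.norm_real, Real.norm_of_nonneg hT.le,
      Real.div_rpow (norm_nonneg _) (by positivity), ← Real.rpow_natCast, ← Real.rpow_mul hT.le]
    have : Real.log T ^ ((d j : ℝ) * e j) ≠ 0 := (Real.rpow_pos_of_pos hT _).ne'
    field_simp
  rw [← h]
  ring

/-- Let `k ≥ 1` be an integer and let `e_1, ..., e_n ≥ 0` be real numbers with the sum `2k`.
(1) For all polynomials `Q_1, ..., Q_n` there are `C` and `T₀` such that for all `T ≥ T₀`, `1 ≤ U ≤ T / log T` the product of the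
`|Q_j(D) ζ(1/2 + iy)|^(e_j)` with the weight is integrable and its integral is at most `C moment`.
(2) If no `Q_j` has roots `a`, `b` with `a + conj b = -1`, there are `c > 0` and `T₀` such that the integral is at least `c moment`.
(3) For all orders `d_1, ..., d_n` there are `c > 0`, `C` and `T₀` such that for these `T`, `U` the integral of
`∏_j |ζ^(d_j)(1/2 + iy)|^(e_j)` with the weight is between `c` and `C` times `(log T)^(d_1 e_1 + ... + d_n e_n) moment`. -/
theorem result (k : ℕ) (hk : 1 ≤ k) (n : ℕ) (e : Fin n → ℝ) (he : ∀ j, 0 ≤ e j) (hs : ∑ j, e j = 2 * k) :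
    (∀ Q : Fin n → ℂ[X], ∃ C T₀ : ℝ, ∀ T : ℝ, T₀ ≤ T → ∀ U : ℝ, 1 ≤ U → U ≤ T / Real.log T →
      Integrable (product Q e T U) ∧ ∫ y : ℝ, product Q e T U y ≤ C * moment k T U) ∧
    (∀ Q : Fin n → ℂ[X],
      (∀ j, ∀ a b : ℂ, (Q j).eval a = 0 → (Q j).eval b = 0 → a + (starRingEnd ℂ) b ≠ -1) →
      ∃ c T₀ : ℝ, 0 < c ∧ ∀ T : ℝ, T₀ ≤ T → ∀ U : ℝ, 1 ≤ U → U ≤ T / Real.log T →
        c * moment k T U ≤ ∫ y : ℝ, product Q e T U y) ∧
    (∀ d : Fin n → ℕ, ∃ c C T₀ : ℝ, 0 < c ∧ ∀ T : ℝ, T₀ ≤ T → ∀ U : ℝ, 1 ≤ U → U ≤ T / Real.log T →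
      Integrable (mixed d e T U) ∧
      c * (Real.log T ^ (∑ j, (d j : ℝ) * e j) * moment k T U) ≤ ∫ y : ℝ, mixed d e T U y ∧
      ∫ y : ℝ, mixed d e T U y ≤ C * (Real.log T ^ (∑ j, (d j : ℝ) * e j) * moment k T U)) := by
  have p1 : ∀ Q : Fin n → ℂ[X], ∃ C T₀ : ℝ, ∀ T : ℝ, T₀ ≤ T → ∀ U : ℝ, 1 ≤ U → U ≤ T / Real.log T →
      Integrable (product Q e T U) ∧ ∫ y : ℝ, product Q e T U y ≤ C * moment k T U := by
    intro Q
    obtain ⟨C, -, h1⟩ := U345Z.psiR_upper k hk Q he hs
    obtain ⟨T1, hT1⟩ := eventually_atTop.mp h1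
    refine ⟨C, max 3 T1, fun T hT U hU1 hU2 => ?_⟩
    exact hT1 T (le_of_max_le_right hT) U ⟨le_of_max_le_left hT, hU1, hU2⟩
  have p2 : ∀ Q : Fin n → ℂ[X],
      (∀ j, ∀ a b : ℂ, (Q j).eval a = 0 → (Q j).eval b = 0 → a + (starRingEnd ℂ) b ≠ -1) →
      ∃ c T₀ : ℝ, 0 < c ∧ ∀ T : ℝ, T₀ ≤ T → ∀ U : ℝ, 1 ≤ U → U ≤ T / Real.log T →
        c * moment k T U ≤ ∫ y : ℝ, product Q e T U y := by
    intro Q hQ
    obtain ⟨c, hc, h1⟩ := U345Z.psiR_lower k hk Q he hs fun j => U345Z.coprime_of_roots (hQ j)
    obtain ⟨T1, hT1⟩ := eventually_atTop.mp h1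
    refine ⟨c, max 3 T1, hc, fun T hT U hU1 hU2 => ?_⟩
    exact hT1 T (le_of_max_le_right hT) U ⟨le_of_max_le_left hT, hU1, hU2⟩
  refine ⟨p1, p2, fun d => ?_⟩
  obtain ⟨C, T1, h1⟩ := p1 fun j => X ^ d j
  obtain ⟨c, T2, hc, h2⟩ := p2 (fun j => X ^ d j) (by
    intro j a b ha hb
    rw [eval_pow, eval_X] at ha hb
    have ha' : a = 0 := eq_zero_of_pow_eq_zero ha
    have hb' : b = 0 := eq_zero_of_pow_eq_zero hb
    rw [ha', hb', map_zero, add_zero]
    norm_num)
  refine ⟨c, C, max 3 (max T1 T2), hc, fun T hT U hU1 hU2 => ?_⟩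
  have hT3 : 3 ≤ T := le_of_max_le_left hT
  have hL : 0 < Real.log T := Real.log_pos (by linarith)
  obtain ⟨q1, q2⟩ := h1 T ((le_max_left _ _).trans (le_of_max_le_right hT)) U hU1 hU2
  have q3 := h2 T ((le_max_right _ _).trans (le_of_max_le_right hT)) U hU1 hU2
  have h : mixed d e T U = fun y => product (fun j => X ^ d j) e T U y * Real.log T ^ (∑ j, (d j : ℝ) * e j) := by
    funext y
    exact (product_pow d e hL U y).symm
  rw [h]
  beta_reduce
  rw [integral_mul_const]
  have hLn : 0 < Real.log T ^ (∑ j, (d j : ℝ) * e j) := Real.rpow_pos_of_pos hL _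
  refine ⟨q1.mul_const _, ?_, ?_⟩
  · calc c * (Real.log T ^ (∑ j, (d j : ℝ) * e j) * moment k T U) =
        (c * moment k T U) * Real.log T ^ (∑ j, (d j : ℝ) * e j) := by ring
      _ ≤ _ := mul_le_mul_of_nonneg_right q3 hLn.le
  · calc _ ≤ (C * moment k T U) * Real.log T ^ (∑ j, (d j : ℝ) * e j) := mul_le_mul_of_nonneg_right q2 hLn.le
      _ = _ := by ring

end Pool.Agent.Results.MP_39df77_nt.MomentsOfAllDerivatives
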