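import Pool.Agent.U899.TM.Trn

set_option autoImplicit false

/-!
# The sixth moment (and all others) near the critical line, at every truncation level, with the small primes

Let `d = d(T)` be a positive function with `d → 0` and `d log T / log²(1/d) → ∞`, and `k > 0` real (`k = 3`
in the sixth moment). The moments of order `2k` of `ζ(1/2 + d + it)` are truncated at the levels
`(2d)^(-V)`: the heights `t` with `|ζ| > (2d)^(-V)` are left out. For a finite set `P` of primes let `F` be a
continuous function of the phases of the `p^(-it)`, `p ∈ P`. We prove the asymptotic formulas for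

  `(1/T) ∫_{|ζ| ≤ (2d)^(-V)} F(phases) |ζ(1/2 + d + it)|^(2k) dt`

for ALL real `V`:

* `V > k`: `a(k) (2d)^(-k²) E_k F`, the expected size of the whole moment with its arithmetic factor `a(k)`;
  the phases become independent with densities proportional to `|1 - e(y) p^(-1/2)|^(-2k)` (`E_k` is the
  expectation for this law); these are the local factors of `a(k)`;
* `V < k`: `a(V) E_V F (2d)^(-(2kV - V²)) / (2 (k - V) √(π log(1/2d)))`: now the law of the small primes and the
  arithmetic factor do not depend on `k`;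
* in the critical window, level `(2d)^(-k) exp(x √(log(1/2d)/2))`: `a(k) Φ(x) E_k F (2d)^(-k²)`, `Φ` the normal
  distribution function.

So in the moment measure on the heights with `|ζ| ≤ (2d)^(-V)` the law of the small primes converges at every
level, to the law with the exponent `min(k, V)`: it freezes at the critical level. The same holds for the
negative moments, `k < 0`, truncated from below.
-/

namespace Pool.Agent.Results.MP_39df77_nt.SmallPrimesInTruncatedMoments

open MeasureTheory Filter Topology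

/-- The arithmetic factor `a(k)`, for all real `k`; `k(k+1)⋯(k+m-1)/m!` is `Γ(k+m)/(Γ(k) m!)`. -/
noncomputable def a (k : ℝ) : ℝ := ∏' p : Nat.Primes, ((1 - 1 / (p : ℝ)) ^ (k ^ 2) *
  ∑' m : ℕ, (∏ i ∈ Finset.range m, (k + i) / ((i : ℝ) + 1)) ^ 2 * (1 / (p : ℝ)) ^ m)

/-- The phases `-t log p / 2π` modulo one of the numbers `p^(-it)`, `p ∈ P`. -/
noncomputable def phases (P : Finset ℕ) (t : ℝ) : P → UnitAddCircle :=
  fun p => ((-(t * Real.log (p : ℕ) / (2 * Real.pi)) : ℝ) : UnitAddCircle)

/-- `|1 - e(y) p^(-1/2)|^(-2k)`, with `e(y) = exp(2πiy)`. -/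
noncomputable def weight (k : ℝ) (p : ℕ) (y : UnitAddCircle) : ℝ :=
  ‖1 - (fourier 1 y : ℂ) * (((p : ℝ) ^ (-(1 / 2 : ℝ)) : ℝ) : ℂ)‖ ^ (-(2 * k))

/-- `E_k[F]`: the mean value of `F` for independent phases whose densities are proportional to the weights. -/
noncomputable def tiltedMean (k : ℝ) (P : Finset ℕ) (F : (P → UnitAddCircle) → ℝ) : ℝ :=
  (∫ x, F x * ∏ p : P, weight k p (x p) ∂(Measure.pi fun _ : P => AddCircle.haarAddCircle (T := (1 : ℝ)))) /
    ∏ p : P, ∫ y, weight k p y ∂(AddCircle.haarAddCircle (T := (1 : ℝ)))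

/-- `|ζ(1/2 + d + it)|` -/
noncomputable def z (d t : ℝ) : ℝ := ‖riemannZeta (1 / 2 + d + t * Complex.I)‖

/-- `log(1/2d)` -/
noncomputable def L (d : ℝ) : ℝ := Real.log (1 / (2 * d))

/-- The moment of order `2k` with the weight `F(phases)`, over the heights `t ∈ [0, T]` in `S`. -/
noncomputable def moment (k : ℝ) (P : Finset ℕ) (F : (P → UnitAddCircle) → ℝ) (d T : ℝ) (S : Set ℝ) : ℝ :=
  (1 / T) * ∫ t in {t : ℝ | t ∈ Set.Icc 0 T ∧ t ∈ S}, F (phases P t) * z d t ^ (2 * k)

/-- The normal distribution function. -/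
noncomputable def Phi (x : ℝ) : ℝ := (ProbabilityTheory.gaussianReal 0 1 (Set.Iic x)).toReal

lemma tm_eq (V : ℝ) {P : Finset ℕ} (hP : ∀ p ∈ P, p.Prime) (F : (P → UnitAddCircle) → ℝ) :
    Pool.Agent.U899.TM.tm V P F = tiltedMean V P F := by
  have hw : ∀ (p : P) (y : UnitAddCircle), Real.exp (Pool.Agent.N748.GC.lw V p y) = weight V p y := by
    intro p y
    unfold Pool.Agent.N748.GC.lw weight
    rw [Real.rpow_def_of_pos (Pool.Agent.N748.GC.RZ.norm_pos' (hP p p.2) y)]
    congr 1
    ring
  have hM : ∀ x : P → UnitAddCircle, Pool.Agent.N748.GC.M0 V P x =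
      (∏ p : P, weight V p (x p)) / ∏ p : P, ∫ y, weight V p y ∂(AddCircle.haarAddCircle (T := (1 : ℝ))) := by
    intro x
    unfold Pool.Agent.N748.GC.M0 Pool.Agent.N748.GC.E0
    rw [Real.exp_sum]
    simp only [hw]
  unfold Pool.Agent.U899.TM.tm tiltedMean
  rw [← integral_div]
  refine integral_congr_ae (ae_of_all _ fun x => ?_)
  simp only [hM]
  ring

theorem result (d : ℝ → ℝ) (hd0 : ∀ᶠ T : ℝ in atTop, 0 < d T) (hd : Tendsto d atTop (𝓝 0))
    (hdL : Tendsto (fun T : ℝ => d T * Real.log T / Real.log (1 / d T) ^ 2) atTop atTop)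
    (P : Finset ℕ) (hP : ∀ p ∈ P, p.Prime) (F : (P → UnitAddCircle) → ℝ) (hF : Continuous F) :
    (∀ k : ℝ, 0 < a k) ∧
    -- moments of positive order, above, below and in the window around the critical level
    (∀ k : ℝ, 0 < k →
      (∀ V : ℝ, k < V → Tendsto (fun T : ℝ => (2 * d T) ^ (k ^ 2) *
        moment k P F (d T) T {t | z (d T) t ≤ (2 * d T) ^ (-V)}) atTop (𝓝 (a k * tiltedMean k P F))) ∧
      (∀ V : ℝ, V < k → Tendsto (fun T : ℝ => Real.sqrt (Real.pi * L (d T)) * (2 * d T) ^ (2 * k * V - V ^ 2) *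
        moment k P F (d T) T {t | z (d T) t ≤ (2 * d T) ^ (-V)}) atTop
          (𝓝 (a V * tiltedMean V P F / (2 * (k - V))))) ∧
      (∀ x : ℝ, Tendsto (fun T : ℝ => (2 * d T) ^ (k ^ 2) *
        moment k P F (d T) T {t | z (d T) t ≤ (2 * d T) ^ (-k) * Real.exp (x * Real.sqrt (L (d T) / 2))}) atTop
          (𝓝 (a k * Phi x * tiltedMean k P F))) ∧
      -- the law of the small primes at every level
      ∀ V : ℝ, Tendsto (fun T : ℝ => moment k P F (d T) T {t | z (d T) t ≤ (2 * d T) ^ (-V)} /
        moment k P (fun _ => 1) (d T) T {t | z (d T) t ≤ (2 * d T) ^ (-V)}) atTop (𝓝 (tiltedMean (min k V) P F))) ∧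
    -- moments of negative order
    (∀ k : ℝ, k < 0 →
      (∀ V : ℝ, V < k → Tendsto (fun T : ℝ => (2 * d T) ^ (k ^ 2) *
        moment k P F (d T) T {t | (2 * d T) ^ (-V) ≤ z (d T) t}) atTop (𝓝 (a k * tiltedMean k P F))) ∧
      ∀ V : ℝ, k < V → Tendsto (fun T : ℝ => Real.sqrt (Real.pi * L (d T)) * (2 * d T) ^ (2 * k * V - V ^ 2) *
        moment k P F (d T) T {t | (2 * d T) ^ (-V) ≤ z (d T) t}) atTop
          (𝓝 (a V * tiltedMean V P F / (2 * (V - k))))) := by
  have hA : Pool.Agent.N748.MG.Ad d := ⟨hd0, hd, hdL⟩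
  refine ⟨fun k => (Pool.Agent.N748.MG.aC_akR k).1, fun k hk => ⟨fun V hV => ?_, fun V hV => ?_, fun x => ?_,
    fun V => ?_⟩, fun k hk => ⟨fun V hV => ?_, fun V hV => ?_⟩⟩
  · have key := Pool.Agent.U899.TM.superF hP hF hA hk hV
    rw [tm_eq k hP F] at key
    exact key
  · have key := Pool.Agent.U899.TM.masterF hP hF hA V k (-1) (by norm_num) (by linarith) (by linarith) (Set.Iic 0)
      measurableSet_Iic (fun x hx => by rw [Set.mem_Iic]; linarith)
      (fun x hx => by rw [Set.mem_Iic] at hx; linarith)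
      (Pool.Agent.N748.MG.TMC.int_neg (by linarith))
      (fun T => {t | z (d T) t ≤ (2 * d T) ^ (-V)})
      (fun T hT => measurableSet_le (Pool.Agent.N748.MG.TMC.mz_meas hT) measurable_const) (fun T h0 t ht => by
        change Pool.Agent.N748.MG.mz (d T) t ≤ (2 * d T) ^ (-V) ↔ _
        rw [Pool.Agent.N748.MG.TMC.level h0, Set.mem_Iic, sub_nonpos, Real.log_le_iff_le_exp ht])
    rw [tm_eq V hP F, show 2 * (-1 * (V - k)) = 2 * (k - V) by ring] at key
    exact key
  · have key := Pool.Agent.U899.TM.windowF hP hF hA hk x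
    rw [tm_eq k hP F] at key
    exact key
  · have key := Pool.Agent.U899.TM.allLevels hP hF hA hk V
    rw [tm_eq (min k V) hP F] at key
    refine key.congr' ?_
    filter_upwards [eventually_gt_atTop 0] with T hT
    unfold moment
    rw [mul_div_mul_left _ _ (one_div_pos.2 hT).ne']
    simp only [one_mul]
    rfl
  · have key := Pool.Agent.U899.TM.negF hP hF hA hk hV
    rw [tm_eq k hP F] at key
    exact key
  · have key := Pool.Agent.U899.TM.masterF hP hF hA V k 1 (by norm_num) (by linarith) (by linarith) (Set.Ici 0)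
      measurableSet_Ici (fun x hx => by rw [Set.mem_Ici]; linarith)
      (fun x hx => by rw [Set.mem_Ici] at hx; linarith)
      (by rw [integral_Ici_eq_integral_Ioi]; exact Pool.Agent.N748.MG.TMC.int_pos (by linarith))
      (fun T => {t | (2 * d T) ^ (-V) ≤ z (d T) t})
      (fun T hT => measurableSet_le measurable_const (Pool.Agent.N748.MG.TMC.mz_meas hT)) (fun T h0 t ht => by
        change (2 * d T) ^ (-V) ≤ Pool.Agent.N748.MG.mz (d T) t ↔ _
        rw [Pool.Agent.N748.MG.TMC.level h0, Set.mem_Ici, sub_nonneg, Real.le_log_iff_exp_le ht])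
    rw [tm_eq V hP F, one_mul] at key
    exact key

end Pool.Agent.Results.MP_39df77_nt.SmallPrimesInTruncatedMoments
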