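import Pool.Agent.U345.ZL3

/-!
# Sets which carry a positive proportion of the moments of zeta

Let `k` be an integer (`k = 3` in the sixth moment problem). For `1 ≤ U ≤ T / log T` let `moment k T U` be the integral of
`|ζ(1/2 + iy)|^(2k)` over `y` with the Gaussian weight `exp (-((y - T) / U)^2)`, i.e. essentially over the interval of length about `U`
around `T` (`U` may be bounded, e.g. `U = 1`). A set `E` of real numbers is called thick (with the parameters `a`, `θ`) if every interval of
length `a / log T` (starting at a point `x` with `|x - T| ≤ η T`) contains a part of `E` of measure at least `θ a / log T`; it is thin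
(with `a`, `δ`) if every such interval contains a part of `E` of measure at most `δ a / log T`. The mean distance of the zeros is
`2π / log T`.

Theorem (unconditional).
(1) For all `k`, `a > 0` and `0 < θ ≤ 1` there is a constant `κ > 0` such that every thick set carries at least the proportion `κ` of the
moment, for all `T ≥ T₀` and uniformly in `U` and the set.
(2) Every thin set carries at most the proportion `(1 + ak) δ + ε`.

Here `a` may be arbitrarily large and `θ` arbitrarily small: for instance the even moments can be recovered up to a constant from the values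
in any set which contains some part of the proportion `θ` of each gap of length `a / log T`, however the parts are
chosen; one cannot avoid the large values of `|ζ|` by the choice of one such part in each interval. This is an analogue for the zeta function
of the theorem of Logvinenko and Sereda (for functions with a compactly supported Fourier transform), although the Fourier transform of
`ζ^k` near height `T` has no compact support. Together with (2) the measure `|ζ(1/2 + iy)|^(2k) dy` is, on the scale of the zeros and in
the mean, absolutely continuous in a quantitative form in both directions.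

Proof. Let `f(y)` be `((s - 1) ζ(s))^k` times a Gaussian and the factor `T^(iky/2)`, on the critical line. For all `j` one has
`‖f^(j)‖ ≤ ((k/2 + o(1)) log T)^j ‖f‖` in the mean square, by convexity and the functional equation, without any information on the size of
the moment. Hence the intervals of a partition in which the mean squares of the derivatives of orders `n + 1`, `n + 2` are not bounded by
those of `f` in this way carry at most a quarter of the moment. In the others `f` is close to its Taylor polynomial of degree `n`, which is
bounded by its values at `n + 1` separated points of `E` where `|f|²` is at most twice its mean over `E` (Lagrange's interpolation); `n` is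
chosen so large that the error `(Ck)^n a^n θ^(-n) / n!` is small.
-/

set_option autoImplicit false

namespace Pool.Agent.Results.MP_39df77_nt.ThickSets

open MeasureTheory Filter Topology

/-- the point `1/2 + iy` -/
noncomputable def point (y : ℝ) : ℂ := ((1 / 2 : ℝ) : ℂ) + y * Complex.I

/-- the function `|ζ(1/2 + iy)|^(2k) exp (-((y - T) / U)^2)` -/
noncomputable def integrand (k : ℕ) (T U y : ℝ) : ℝ :=
  ‖riemannZeta (point y)‖ ^ (2 * k) * Real.exp (-((y - T) / U) ^ 2)

/-- the moment `∫ |ζ(1/2 + iy)|^(2k) exp (-((y - T) / U)^2) dy` -/
noncomputable def moment (k : ℕ) (T U : ℝ) : ℝ := ∫ y : ℝ, integrand k T U y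

/-- thick sets at the height `T`: every interval of length `a / log T` which starts at distance at most `η T` from `T` contains a part of
`E` of measure at least `θ a / log T` -/
def Thick (a θ η T : ℝ) (E : Set ℝ) : Prop :=
  MeasurableSet E ∧ ∀ x : ℝ, |x - T| ≤ η * T →
    ENNReal.ofReal (θ * (a / Real.log T)) ≤ volume (E ∩ Set.Icc x (x + a / Real.log T))

/-- thin sets at the height `T`: every interval of length `a / log T` which starts at distance at most `η T` from `T` contains a part of
`E` of measure at most `δ a / log T` -/
def Thin (a δ η T : ℝ) (E : Set ℝ) : Prop :=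
  MeasurableSet E ∧ ∀ x : ℝ, |x - T| ≤ η * T →
    volume (E ∩ Set.Icc x (x + a / Real.log T)) ≤ ENNReal.ofReal (δ * (a / Real.log T))

/-- Let `k` be an integer and `a > 0`.
(1) For `0 < θ ≤ 1` there is `κ > 0` such that for all `η > 0` there is `T₀` such that for all `T ≥ T₀`, all `U` with
`1 ≤ U ≤ T / log T` and all thick sets `E` the integral over `E` is at least `κ` times the moment.
(2) For `δ ≥ 0`, `η > 0` and `ε > 0` there is `T₀` such that for all `T ≥ T₀`, all `U` with `1 ≤ U ≤ T / log T` and all thin sets `E` the
integral over `E` is at most `(1 + ak) δ + ε` times the moment. -/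
theorem result (k : ℕ) (a : ℝ) (ha : 0 < a) :
    (∀ θ : ℝ, 0 < θ → θ ≤ 1 → ∃ κ : ℝ, 0 < κ ∧ ∀ η : ℝ, 0 < η →
      ∃ T₀ : ℝ, ∀ T : ℝ, T₀ ≤ T → ∀ U : ℝ, 1 ≤ U → U ≤ T / Real.log T → ∀ E : Set ℝ, Thick a θ η T E →
        κ * moment k T U ≤ ∫ y in E, integrand k T U y) ∧
    (∀ δ η ε : ℝ, 0 ≤ δ → 0 < η → 0 < ε →
      ∃ T₀ : ℝ, ∀ T : ℝ, T₀ ≤ T → ∀ U : ℝ, 1 ≤ U → U ≤ T / Real.log T → ∀ E : Set ℝ, Thin a δ η T E →
        ∫ y in E, integrand k T U y ≤ ((1 + a * k) * δ + ε) * moment k T U) := by
  refine ⟨fun θ hθ hθ1 => ?_, fun δ η ε hδ hη hε => ?_⟩
  · obtain ⟨κ, hκ, h1⟩ := U345Z.thickZ k ha hθ hθ1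
    refine ⟨κ, hκ, fun η hη => ?_⟩
    obtain ⟨T1, hT1⟩ := eventually_atTop.mp (h1 η hη)
    refine ⟨max 3 T1, fun T hT U hU1 hU2 E hE => ?_⟩
    exact hT1 T (le_of_max_le_right hT) U ⟨le_of_max_le_left hT, hU1, hU2⟩ E hE.1 hE.2
  · obtain ⟨T1, hT1⟩ := eventually_atTop.mp (U345Z.thinZ k ha hδ hη hε)
    refine ⟨max 3 T1, fun T hT U hU1 hU2 E hE => ?_⟩
    exact hT1 T (le_of_max_le_right hT) U ⟨le_of_max_le_left hT, hU1, hU2⟩ E hE.1 hE.2

end Pool.Agent.Results.MP_39df77_nt.ThickSets
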