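import Pool.Agent.U196.GP.Fam
import Pool.Agent.U196.GP.LdC
import Pool.Agent.U761.SZ.SARG

set_option autoImplicit false

/-!
# Long gaps, too many and too few zeros at the extreme values of zeta, with normal pair statistics

A family of measurable sets `S(T)` of points of `[T, 2T]` is called *visible* if for some `θ, c > 0` and all large `T` it carries the share
`c` of `∫_T^{2T} |B|²` for EVERY Dirichlet polynomial `B` of length `T^θ`. We prove, without any hypothesis: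

(A) Every visible family carries (1) a positive share of `∫ V |B|²` for every product `V` of nonnegative powers of shifted values of zeta of
total order at most two and every short `B`; (2) all the moments `T (log T)^(k²)`, `k` real, positive or negative; (3) the large values of
`log ζ(1/2 + it) = log |ζ(1/2 + it)| + i π S(t)` in every direction of the complex plane up to `c √(log T / log log T)`, with measure;
so the extreme large and small values of `|ζ|` and the large values of `S(t)` and of `-S(t)`; (4) the large deviations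
`|ζ| ≥ (log T)^κ`, `κ < 1`, up to `(log T)^η`.

(B) For the zeros near `t` the following sets are (contain) visible families, for `a < 1/2`, `ε > 0` and every `H ≥ H₀`:
(1) the points `t` in the inner part of a gap between consecutive ordinates which is longer by the factor `1 + c` than the mean spacing;
(2) for ANY real `x < y`, the points `t` for which the number of the zeros with `|γ - t| ≤ H / log T` is `H/π + v √(log H) / π` with
`x ≤ v ≤ y`;
and both with Montgomery's law for the form factor of the zeros with `|γ - t| ≤ H / log T` in the range `[ε, a]` and with a pair of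
zeros of this window closer than `0.825` mean spacings.

So at the extreme values of zeta of every direction the zeros nearby fluctuate as they do on the average: there are such values inside
long gaps, and others where the number of the nearby zeros is too large (too small) by any given number of standard deviations, and the
pair statistics stay those of the mean.

Ideas: (A) resonators and tilting polynomials are short Dirichlet polynomials (`U196/SH`, `U196/GP`; for (3) helper761's resonators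
directed at a complex number, `U761/SZ`, sibling `MP_4e5e8a_nt.EveryDirection`). (B1) a positive share of the mass of every short
Dirichlet polynomial is at the long gaps (`U196/UV`, sibling `MP_21f43f_nt.GapsEveryPolynomial`); here its part in the inner part of the
gap. (B2) the central limit theorem of the number of zeros relative to every short polynomial (`U196/CL`, sibling
`MP_21f43f_nt.RSumsGaussianEveryPolynomial`). Montgomery's law in almost every window relative to every polynomial: helper85 (`U85/Ml`).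
-/

namespace Pool.Agent.Results.MP_39df77_nt.ZeroStatisticsAtExtremeValues

open Filter Topology MeasureTheory Complex

noncomputable section

/-- the Dirichlet polynomial with the coefficients `b_1, ..., b_N` on the critical line -/
def B (N : ℕ) (b : ℕ → ℂ) (t : ℝ) : ℂ := ∑ n ∈ Finset.Icc 1 N, b n * (n : ℂ) ^ (-(1 / 2 + t * I))

/-- measurable subsets `S T` of `[T, 2T]` which carry a positive share of the mean square of every short Dirichlet polynomial -/
def Visible (S : ℝ → Set ℝ) : Prop :=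
  (∀ T : ℝ, MeasurableSet (S T) ∧ S T ⊆ Set.Icc T (2 * T)) ∧
  ∃ θ c T₀ : ℝ, 0 < θ ∧ 0 < c ∧ ∀ T : ℝ, T₀ ≤ T → ∀ N : ℕ, (N : ℝ) ≤ T ^ θ → ∀ b : ℕ → ℂ,
    c * (∫ t in T..(2 * T), ‖B N b t‖ ^ 2) ≤ ∫ t in S T, ‖B N b t‖ ^ 2

/-- the product `∏_j |ζ(1/2 + i(t + α_j))|^(2 k_j)` -/
def V {n : ℕ} (k α : Fin n → ℝ) (t : ℝ) : ℝ := ∏ j, ‖riemannZeta (1 / 2 + (t + α j : ℝ) * I)‖ ^ (2 * k j)

/-- `S(t) = (1/π) arg ζ(1/2 + it)`, by continuous variation along the segments from `2` to `2 + it` and from `2 + it` to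
`1/2 + it`: `(1/π) Im ∫ (ζ'/ζ)(s) ds` along this path -/
def S (t : ℝ) : ℝ := 1 / Real.pi * ((∫ u in (0 : ℝ)..t, (logDeriv riemannZeta ((2 : ℂ) + u * I)).re) -
  ∫ x in (1 / 2 : ℝ)..2, (logDeriv riemannZeta ((x : ℂ) + t * I)).im)

/-- `log ζ(1/2 + it) = log |ζ(1/2 + it)| + i π S(t)` -/
def logZeta (t : ℝ) : ℂ := (Real.log ‖riemannZeta (1 / 2 + t * I)‖ : ℂ) + (Real.pi * S t : ℝ) * I

/-- the nontrivial zeros of zeta with `|γ - t| ≤ r` -/
def zeros (t r : ℝ) : Set ℂ := {s : ℂ | riemannZeta s = 0 ∧ 0 < s.re ∧ s.re < 1 ∧ |s.im - t| ≤ r}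

/-- their number, with multiplicity -/
def count (t r : ℝ) : ℕ := ∑ᶠ s ∈ zeros t r, analyticOrderNatAt riemannZeta s

/-- the form factor of the zeros with `|γ - t| ≤ H/log T` -/
def F (T H α t : ℝ) : ℝ :=
  ‖∑ᶠ s ∈ zeros t (H / Real.log T), (analyticOrderNatAt riemannZeta s : ℂ) * (T : ℂ) ^ (α * (s - 1 / 2))‖ ^ 2 /
    (H / Real.pi)

/-- Montgomery's law for the window `|γ - t| ≤ H/log T`, and two zeros of it (with multiplicity) closer than `0.825` mean spacings -/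
def Normal (a ε H T t : ℝ) : Prop :=
  (∀ x : ℝ, ε ≤ x → x ≤ a → |(∫ α in (0 : ℝ)..x, F T H α t) - (1 + x ^ 2) / 2| ≤ ε) ∧
  ∃ s ∈ zeros t (H / Real.log T), ∃ s' ∈ zeros t (H / Real.log T),
    |s.im - s'.im| ≤ 0.825 * (2 * Real.pi / Real.log T) ∧ (s ≠ s' ∨ 2 ≤ analyticOrderNatAt riemannZeta s)

/-- `t` is at distance at least `h` from the ends of an interval of length `l` without ordinates of nontrivial zeros in its interior -/
def InGap (l h t : ℝ) : Prop := ∃ u : ℝ, u + h ≤ t ∧ t ≤ u + l - h ∧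
  ∀ s : ℂ, riemannZeta s = 0 → 0 < s.re → s.re < 1 → s.im ≤ u ∨ u + l ≤ s.im

theorem ae_eq : ∀ᵐ t : ℝ, logZeta t = Pool.Agent.U761.SZ.Lz t := by
  filter_upwards [Pool.Agent.U761.SZ.ae_piS] with t ht
  have h1 : Real.pi * S t = Pool.Agent.U761.SZ.aS t := by
    rw [← ht]
    unfold S Pool.Agent.U761.SZ.piS
    rw [← mul_assoc, mul_one_div_cancel Real.pi_ne_zero, one_mul]
  unfold logZeta Pool.Agent.U761.SZ.Lz
  rw [h1]
  apply Complex.ext <;> simp [Pool.Agent.Q97.UM.zt]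

/-- from shares of `∫ |B|²` to multiples of `T ∑ |b_n|²/n` -/
theorem toHG {S : ℝ → Set ℝ} (h : Visible S) : (∀ T, MeasurableSet (S T)) ∧ (∀ T, S T ⊆ Set.Icc T (2 * T)) ∧
    ∃ θ c : ℝ, 0 < θ ∧ 0 < c ∧ Pool.Agent.U196.GP.HG S θ c := by
  obtain ⟨h1, θ, c, T₀, hθ, hc, h2⟩ := h
  refine ⟨fun T => (h1 T).1, fun T => (h1 T).2, min θ (1 / 4), c / 2, by positivity, by positivity, ?_⟩
  filter_upwards [eventually_ge_atTop T₀, eventually_ge_atTop 16] with T hT hT16 N hN b
  have hT1 : 1 ≤ T := by linarith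
  have a1 := h2 T hT N (hN.trans (Real.rpow_le_rpow_of_exponent_le hT1 (min_le_left _ _))) b
  have a2 := (Pool.Agent.Q84.UM.t_MVL T hT16 N (hN.trans (Real.rpow_le_rpow_of_exponent_le hT1 (min_le_right _ _))) b).1
  have a3 := mul_le_mul_of_nonneg_left a2 hc.le
  refine le_trans (le_of_eq ?_) (a3.trans a1)
  ring

/-- and back -/
theorem ofHG {S : ℝ → Set ℝ} {θ c : ℝ} (hSm : ∀ T, MeasurableSet (S T)) (hSs : ∀ T, S T ⊆ Set.Icc T (2 * T)) (hθ : 0 < θ) (hc : 0 < c)
    (h : Pool.Agent.U196.GP.HG S θ c) : Visible S := by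
  have hev := h.and (eventually_ge_atTop (16 : ℝ))
  rw [Filter.eventually_atTop] at hev
  obtain ⟨T₀, hT₀⟩ := hev
  refine ⟨fun T => ⟨hSm T, hSs T⟩, min θ (1 / 4), c / 2, T₀, by positivity, by positivity, fun T hT N hN b => ?_⟩
  obtain ⟨h1, hT16⟩ := hT₀ T hT
  have hT1 : 1 ≤ T := by linarith
  have a1 := h1 N (hN.trans (Real.rpow_le_rpow_of_exponent_le hT1 (min_le_left _ _))) b
  have a2 := (Pool.Agent.Q84.UM.t_MVL T hT16 N (hN.trans (Real.rpow_le_rpow_of_exponent_le hT1 (min_le_right _ _))) b).2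
  have a3 := mul_le_mul_of_nonneg_left a2 (by positivity : 0 ≤ c / 2)
  refine a3.trans (le_trans (le_of_eq ?_) a1)
  ring

/-- **Zero statistics at the extreme values.** -/
theorem result :
    -- visible families carry the moments, the extreme values and the large deviations of zeta
    (∀ G : ℝ → Set ℝ, Visible G →
      (∀ n : ℕ, ∃ θ c T₀ : ℝ, 0 < θ ∧ 0 < c ∧ ∀ T : ℝ, T₀ ≤ T → ∀ k α : Fin n → ℝ, (∀ j, 0 ≤ k j) → ∑ j, k j ≤ 1 →
        (∀ j, |α j| ≤ T / 2) → ∀ N : ℕ, (N : ℝ) ≤ T ^ θ → ∀ b : ℕ → ℂ,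
          c * (∫ t in T..(2 * T), V k α t * ‖B N b t‖ ^ 2) ≤ ∫ t in G T, V k α t * ‖B N b t‖ ^ 2) ∧
      (∀ A : ℝ, ∃ c T₀ : ℝ, 0 < c ∧ ∀ T : ℝ, T₀ ≤ T → ∀ k : ℝ, |k| ≤ A →
        ENNReal.ofReal (c * (T * Real.log T ^ (k ^ 2))) ≤
          ∫⁻ t in G T, ENNReal.ofReal (‖riemannZeta (1 / 2 + t * I)‖ ^ (2 * k))) ∧
      (∃ c K C T₀ : ℝ, 0 < c ∧ 0 < K ∧ 0 < C ∧ ∀ T : ℝ, T₀ ≤ T → ∀ z : ℂ,
        ‖z‖ ≤ c * Real.sqrt (Real.log T / Real.log (Real.log T)) →
          T * Real.exp (-(C * (1 + ‖z‖ ^ 2 / Real.log (2 + Real.log T / ((1 + ‖z‖ ^ 2) * Real.log (Real.log T)))))) ≤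
            volume.real {t : ℝ | t ∈ G T ∧ ‖logZeta t - z‖ ≤ K * Real.sqrt (Real.log (Real.log T))}) ∧
      (∀ κ η : ℝ, 0 ≤ κ → κ < 1 → 0 < η → ∃ T₀ : ℝ, ∀ T : ℝ, T₀ ≤ T →
        ENNReal.ofReal (T * Real.log T ^ (-κ ^ 2 - η)) ≤
          volume {t : ℝ | t ∈ G T ∧ Real.log T ^ κ ≤ ‖riemannZeta (1 / 2 + t * I)‖})) ∧
    -- the long gaps, with normal windows
    (∃ c : ℝ, 0 < c ∧ ∀ a : ℝ, a < 1 / 2 → ∀ ε : ℝ, 0 < ε → ∃ H₀ : ℝ, ∀ H : ℝ, H₀ ≤ H → ∃ G : ℝ → Set ℝ, Visible G ∧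
      ∀ T : ℝ, 16 ≤ T → ∀ t ∈ G T,
        InGap ((1 + c) * (2 * Real.pi / Real.log T)) (Real.pi / 2 / Real.log T) t ∧ Normal a ε H T t) ∧
    -- any deviation of the number of the zeros, with normal windows
    (∀ x y : ℝ, x < y → ∀ a : ℝ, a < 1 / 2 → ∀ ε : ℝ, 0 < ε → ∃ H₀ : ℝ, 3 ≤ H₀ ∧ ∀ H : ℝ, H₀ ≤ H → ∃ G : ℝ → Set ℝ, Visible G ∧
      ∃ T₁ : ℝ, ∀ T : ℝ, T₁ ≤ T → ∀ t ∈ G T,
        (x ≤ ((count t (H / Real.log T) : ℝ) - H / Real.pi) * (Real.pi / Real.sqrt (Real.log H)) ∧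
          ((count t (H / Real.log T) : ℝ) - H / Real.pi) * (Real.pi / Real.sqrt (Real.log H)) ≤ y) ∧ Normal a ε H T t) := by
  classical
  refine ⟨fun G hG => ?_, ?_, ?_⟩
  · obtain ⟨hm, hs, θ, c, hθ, hc, hG⟩ := toHG hG
    refine ⟨fun n => ?_, fun A => ?_, ?_, fun κ η hκ hκ1 hη => ?_⟩
    · obtain ⟨θ', c', C, hθ', hc', hC, h⟩ := Pool.Agent.U196.SH.shareV hθ hc (fun _ T => hs T) hG.hv n
      rw [Filter.eventually_atTop] at h
      obtain ⟨T₀, hT₀⟩ := h
      exact ⟨θ', c', T₀, hθ', hc', fun T hT k α hk hk1 hα N hN b => (hT₀ T hT k α hk hk1 hα).2 Pool.Agent.U196.GP.i1 N hN b⟩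
    · obtain ⟨c', hc', h⟩ := Pool.Agent.U196.GP.momGl hθ hc hm hs hG (le_max_right A 1)
      rw [Filter.eventually_atTop] at h
      obtain ⟨T₀, hT₀⟩ := h
      exact ⟨c', T₀, hc', fun T hT k hk => hT₀ T hT k (hk.trans (le_max_left _ _))⟩
    · obtain ⟨c', K, C, hc', hK, hC, h⟩ := Pool.Agent.U196.GP.ldC hθ hc hm hs hG
      rw [Filter.eventually_atTop] at h
      obtain ⟨T₀, hT₀⟩ := h
      refine ⟨c', K, C, T₀, hc', hK, hC, fun T hT z hz => (hT₀ T hT z hz).trans (le_of_eq ?_)⟩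
      rw [measureReal_def]
      congr 1
      refine measure_congr ?_
      filter_upwards [ae_eq] with t ht
      refine propext ?_
      show (t ∈ G T ∧ ‖Pool.Agent.U761.SZ.Lz t - z‖ ≤ K * Real.sqrt (Real.log (Real.log T))) ↔
        (t ∈ G T ∧ ‖logZeta t - z‖ ≤ K * Real.sqrt (Real.log (Real.log T)))
      rw [ht]
    · have h := Pool.Agent.U196.GP.ldG hθ hc hm hs hG hκ hκ1 hη
      rw [Filter.eventually_atTop] at h
      obtain ⟨T₀, hT₀⟩ := h
      exact ⟨T₀, fun T hT => hT₀ T hT⟩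
  · obtain ⟨c, hc, -, h⟩ := Pool.Agent.U196.GP.famL
    refine ⟨c, hc, fun a ha ε hε => ?_⟩
    obtain ⟨H₀, -, h⟩ := h a ha ε hε
    refine ⟨H₀, fun H hH => ?_⟩
    obtain ⟨θ, c₀, hθ, hc₀, S, hm, hs, hS, hG⟩ := h H hH
    exact ⟨S, ofHG hm hs hθ hc₀ hG, fun T hT t ht => hS T hT t ht⟩
  · intro x y hxy a ha ε hε
    obtain ⟨H₀, hH₀, h⟩ := Pool.Agent.U196.GP.famF hxy a ha hε
    refine ⟨H₀, hH₀, fun H hH => ?_⟩
    obtain ⟨θ, c₀, T₁, hθ, hc₀, S, hm, hs, hS, hG⟩ := h H hH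
    exact ⟨S, ofHG hm hs hθ hc₀ hG, T₁, fun T hT t ht => ⟨⟨(hS T hT t ht).1, (hS T hT t ht).2.1⟩, (hS T hT t ht).2.2⟩⟩

end

end Pool.Agent.Results.MP_39df77_nt.ZeroStatisticsAtExtremeValues
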